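import Pool.Agent.Run7.h614.NM.Refl

/-! # The second Bernoulli polynomial and a one-sided difference theorem

If for all `h < h'` in some infinite set the means of `({y (n + h') - y (n + h)} - 1 / 2) ^ 2` have
upper limit at most `1 / 12`, then `y` is equidistributed modulo one. -/

set_option autoImplicit false

namespace Pool.Agent.Run7.h614.NV

open Finset Filter Topology
open Pool.Agent.H807R2.Dav (ee norm_ee ee_add ee_zero ee_int ee_add_int ee_eq)
open Pool.Agent.H534R3.UDist (UD Weyl ud_of_weyl)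
open Pool.Agent.Run7.h614.NM (ee_re ee_conj shift_sum)
open scoped Real ComplexConjugate

/-- `({z} - 1 / 2) ^ 2` -/
noncomputable def V (z : ℝ) : ℝ := (Int.fract z - 1 / 2) ^ 2

lemma V_zero : V 0 = 1 / 4 := by
  unfold V
  rw [Int.fract_zero]
  norm_num

lemma V_nonneg (z : ℝ) : 0 ≤ V z := sq_nonneg _

lemma V_le (z : ℝ) : V z ≤ 1 / 4 := by
  unfold V
  have h1 := Int.fract_nonneg z
  have h2 := (Int.fract_lt_one z).le
  nlinarith

lemma V_neg (z : ℝ) : V (-z) = V z := by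
  unfold V
  by_cases h : Int.fract z = 0
  · rw [Int.fract_neg_eq_zero.2 h, h]
  · rw [Int.fract_neg h]
    ring

lemma cos_fract (k : ℕ) (z : ℝ) : Real.cos (2 * π * k * Int.fract z) = Real.cos (2 * π * k * z) := by
  have h1 : 2 * π * k * Int.fract z = 2 * π * k * z - ((k * ⌊z⌋ : ℤ) : ℝ) * (2 * π) := by
    unfold Int.fract
    push_cast
    ring
  rw [h1, Real.cos_sub_int_mul_two_pi]

lemma hasSum_V (z : ℝ) : HasSum (fun k : ℕ => 1 / (k : ℝ) ^ 2 * Real.cos (2 * π * k * z))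
    (π ^ 2 * (V z - 1 / 12)) := by
  have h := hasSum_one_div_nat_pow_mul_cos (k := 1) one_ne_zero (x := Int.fract z)
    ⟨Int.fract_nonneg z, (Int.fract_lt_one z).le⟩
  have e1 : (fun k : ℕ => 1 / (k : ℝ) ^ 2 * Real.cos (2 * π * k * z)) =
      fun n : ℕ => 1 / (n : ℝ) ^ (2 * 1) * Real.cos (2 * π * n * Int.fract z) := by
    funext n
    rw [cos_fract]
  rw [e1]
  convert h using 1
  unfold V
  have h2 : (Polynomial.map (algebraMap ℚ ℝ) (Polynomial.bernoulli (2 * 1))).eval (Int.fract z) =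
      (Int.fract z) ^ 2 - Int.fract z + 1 / 6 := by
    simp [Polynomial.bernoulli, Finset.sum_range_succ, bernoulli_one, bernoulli_two]
    ring
  rw [h2]
  norm_num [Nat.factorial]
  ring

lemma norm_sq_sum (T : Finset ℕ) (t : ℕ → ℝ) :
    ‖∑ h ∈ T, ee (t h)‖ ^ 2 = ∑ h ∈ T, ∑ h' ∈ T, Real.cos (2 * π * (t h - t h')) := by
  have h1 : ((‖∑ h ∈ T, ee (t h)‖ ^ 2 : ℝ) : ℂ) = ∑ h ∈ T, ∑ h' ∈ T, ee (t h - t h') := by
    rw [Complex.ofReal_pow, ← Complex.conj_mul', map_sum, mul_comm, sum_mul_sum]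
    refine sum_congr rfl fun h _ => sum_congr rfl fun h' _ => ?_
    rw [ee_conj, ← ee_add, sub_eq_add_neg]
  have h2 := congrArg Complex.re h1
  rw [Complex.ofReal_re] at h2
  rw [h2, Complex.re_sum]
  refine sum_congr rfl fun h _ => ?_
  rw [Complex.re_sum]
  refine sum_congr rfl fun h' _ => ?_
  rw [ee_re]

/-- positivity -/
lemma one_le (T : Finset ℕ) (t : ℕ → ℝ) (k : ℕ) (hk : 1 ≤ k) :
    ‖∑ h ∈ T, ee (k * t h)‖ ^ 2 ≤
      (k : ℝ) ^ 2 * (π ^ 2 * ∑ h ∈ T, ∑ h' ∈ T, (V (t h - t h') - 1 / 12)) := by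
  have h1 : HasSum (fun k : ℕ => 1 / (k : ℝ) ^ 2 * ‖∑ h ∈ T, ee (k * t h)‖ ^ 2)
      (∑ h ∈ T, ∑ h' ∈ T, π ^ 2 * (V (t h - t h') - 1 / 12)) := by
    have h2 : HasSum (fun k : ℕ => ∑ h ∈ T, ∑ h' ∈ T,
        1 / (k : ℝ) ^ 2 * Real.cos (2 * π * k * (t h - t h')))
        (∑ h ∈ T, ∑ h' ∈ T, π ^ 2 * (V (t h - t h') - 1 / 12)) :=
      hasSum_sum fun h _ => hasSum_sum fun h' _ => hasSum_V _
    have e : (fun k : ℕ => 1 / (k : ℝ) ^ 2 * ‖∑ h ∈ T, ee (k * t h)‖ ^ 2) =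
        fun k : ℕ => ∑ h ∈ T, ∑ h' ∈ T,
          1 / (k : ℝ) ^ 2 * Real.cos (2 * π * k * (t h - t h')) := by
      funext k
      rw [norm_sq_sum, mul_sum]
      refine sum_congr rfl fun h _ => ?_
      rw [mul_sum]
      refine sum_congr rfl fun h' _ => ?_
      congr 2
      ring
    rw [e]
    exact h2
  have h2 := le_hasSum h1 k fun j _ => by positivity
  have hk0 : (0 : ℝ) < k := by exact_mod_cast hk
  simp only [← mul_sum] at h2
  rw [one_div, inv_mul_le_iff₀ (by positivity)] at h2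
  exact h2

/-- **van der Corput's inequality with the second Bernoulli polynomial.** -/
theorem vdcV (y : ℕ → ℝ) (T : Finset ℕ) (k N : ℕ) (hk : 1 ≤ k) :
    T.card * ‖∑ n ∈ range N, ee (k * y n)‖ ≤ 2 * ∑ h ∈ T, (h : ℝ) +
      k * π * √(N * ∑ h ∈ T, ∑ h' ∈ T, ∑ n ∈ range N, (V (y (n + h) - y (n + h')) - 1 / 12)) := by
  set f : ℕ → ℂ := fun n => ee (k * y n) with hf
  set S := ∑ n ∈ range N, f n with hS
  set G : ℕ → ℂ := fun n => ∑ h ∈ T, f (n + h) with hG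
  have h1 : (T.card : ℂ) * S - ∑ n ∈ range N, G n =
      ∑ h ∈ T, (S - ∑ n ∈ range N, f (n + h)) := by
    rw [sum_sub_distrib, sum_const, nsmul_eq_mul, hG]
    congr 1
    exact sum_comm
  have h2 : ‖(T.card : ℂ) * S - ∑ n ∈ range N, G n‖ ≤ 2 * ∑ h ∈ T, (h : ℝ) := by
    rw [h1, mul_sum]
    exact (norm_sum_le _ _).trans (sum_le_sum fun h _ => shift_sum f (fun n => (norm_ee _).le) N h)
  have hk0 : (0 : ℝ) < k := by exact_mod_cast hk
  have h3 : ∀ n, ‖G n‖ ^ 2 ≤ (k : ℝ) ^ 2 * (π ^ 2 * ∑ h ∈ T, ∑ h' ∈ T,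
      (V (y (n + h) - y (n + h')) - 1 / 12)) := fun n => one_le T (fun h => y (n + h)) k hk
  have h4 : ‖∑ n ∈ range N, G n‖ ≤ √(N * ∑ n ∈ range N, ‖G n‖ ^ 2) := by
    apply Real.le_sqrt_of_sq_le
    have h5 : ‖∑ n ∈ range N, G n‖ ≤ ∑ n ∈ range N, ‖G n‖ := norm_sum_le _ _
    have h6 : (∑ n ∈ range N, ‖G n‖) ^ 2 ≤ ((range N).card : ℝ) * ∑ n ∈ range N, ‖G n‖ ^ 2 :=
      sq_sum_le_card_mul_sum_sq
    rw [card_range] at h6
    exact (pow_le_pow_left₀ (norm_nonneg _) h5 2).trans h6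
  have h5 : (N : ℝ) * ∑ n ∈ range N, ‖G n‖ ^ 2 ≤ (k * π) ^ 2 * (N * ∑ h ∈ T, ∑ h' ∈ T,
      ∑ n ∈ range N, (V (y (n + h) - y (n + h')) - 1 / 12)) := by
    have h6 : ∑ n ∈ range N, ‖G n‖ ^ 2 ≤ (k : ℝ) ^ 2 * (π ^ 2 * ∑ h ∈ T, ∑ h' ∈ T,
        ∑ n ∈ range N, (V (y (n + h) - y (n + h')) - 1 / 12)) := by
      refine (sum_le_sum fun n _ => h3 n).trans (le_of_eq ?_)
      rw [← mul_sum, ← mul_sum, sum_comm]
      congr 2
      refine sum_congr rfl fun h _ => ?_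
      rw [sum_comm]
    calc _ ≤ (N : ℝ) * _ := mul_le_mul_of_nonneg_left h6 (Nat.cast_nonneg N)
      _ = _ := by ring
  have h6 : ‖∑ n ∈ range N, G n‖ ≤ k * π * √(N * ∑ h ∈ T, ∑ h' ∈ T, ∑ n ∈ range N,
      (V (y (n + h) - y (n + h')) - 1 / 12)) := by
    refine h4.trans ((Real.sqrt_le_sqrt h5).trans ?_)
    rw [Real.sqrt_mul (by positivity), Real.sqrt_sq (by positivity)]
  have h7 : (T.card : ℝ) * ‖S‖ = ‖(T.card : ℂ) * S‖ := by
    rw [norm_mul, Complex.norm_natCast]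
  rw [h7]
  have h8 : ‖(T.card : ℂ) * S‖ ≤ ‖(T.card : ℂ) * S - ∑ n ∈ range N, G n‖ + ‖∑ n ∈ range N, G n‖ := by
    have := norm_add_le ((T.card : ℂ) * S - ∑ n ∈ range N, G n) (∑ n ∈ range N, G n)
    rwa [sub_add_cancel] at this
  linarith

/-- **One-sided difference theorem.** -/
theorem weyl_of_V (y : ℕ → ℝ) (D : Set ℕ) (hD : D.Infinite)
    (h : ∀ i ∈ D, ∀ j ∈ D, i < j → ∀ ε : ℝ, 0 < ε → ∀ᶠ N : ℕ in atTop,
      ∑ n ∈ range N, V (y (n + j) - y (n + i)) ≤ (1 / 12 + ε) * N) : Weyl y := by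
  intro k hk
  rw [Metric.tendsto_atTop]
  intro ε hε
  have hk0 : (0 : ℝ) < k := by exact_mod_cast hk
  obtain ⟨H, hH0, hH⟩ : ∃ H : ℕ, 1 ≤ H ∧ 4 * (k * π) ^ 2 / ε ^ 2 < H := by
    obtain ⟨H, hH⟩ := exists_nat_gt (4 * (k * π) ^ 2 / ε ^ 2)
    refine ⟨H + 1, by omega, ?_⟩
    push_cast
    linarith
  have hHr : (0 : ℝ) < H := by exact_mod_cast hH0
  obtain ⟨T, hTD, hTH⟩ := hD.exists_subset_card_eq H
  have hall : ∀ i ∈ T, ∀ j ∈ T, ∀ᶠ N : ℕ in atTop,
      ∑ n ∈ range N, (V (y (n + i) - y (n + j)) - 1 / 12) ≤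
        if i = j then 1 / 6 * (N : ℝ) else 1 / (6 * (H : ℝ)) * N := by
    intro i hi j hj
    have hlt : ∀ i ∈ T, ∀ j ∈ T, i < j → ∀ᶠ N : ℕ in atTop,
        ∑ n ∈ range N, (V (y (n + j) - y (n + i)) - 1 / 12) ≤ 1 / (6 * (H : ℝ)) * N := by
      intro i hi j hj hij
      filter_upwards [h i (hTD hi) j (hTD hj) hij (1 / (6 * (H : ℝ))) (by positivity)] with N hN
      rw [sum_sub_distrib, sum_const, card_range, nsmul_eq_mul]
      linarith
    rcases lt_trichotomy i j with hij | hij | hij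
    · simp only [if_neg (show ¬ i = j by omega)]
      filter_upwards [hlt i hi j hj hij] with N hN
      refine le_trans (le_of_eq ?_) hN
      refine sum_congr rfl fun n _ => ?_
      rw [← V_neg, neg_sub]
    · subst hij
      simp only [if_true]
      refine Eventually.of_forall fun N => le_of_eq ?_
      rw [sum_congr rfl (g := fun _ => (1 / 6 : ℝ)) (fun n _ => by rw [sub_self, V_zero]; norm_num),
        sum_const, card_range, nsmul_eq_mul, mul_comm]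
    · simp only [if_neg (show ¬ i = j by omega)]
      exact hlt j hj i hi hij
  have hall' : ∀ᶠ N : ℕ in atTop, ∀ i ∈ T, ∀ j ∈ T,
      ∑ n ∈ range N, (V (y (n + i) - y (n + j)) - 1 / 12) ≤
        if i = j then 1 / 6 * (N : ℝ) else 1 / (6 * (H : ℝ)) * N := by
    rw [eventually_all_finset]
    intro i hi
    rw [eventually_all_finset]
    intro j hj
    exact hall i hi j hj
  have hbig : ∀ᶠ N : ℕ in atTop, 4 * (2 * ∑ h ∈ T, (h : ℝ)) / (ε * H) < (N : ℝ) :=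
    tendsto_natCast_atTop_atTop.eventually_gt_atTop _
  have hpos : ∀ᶠ N : ℕ in atTop, (0 : ℝ) < (N : ℝ) :=
    tendsto_natCast_atTop_atTop.eventually_gt_atTop _
  obtain ⟨N₀, hN₀⟩ := eventually_atTop.1 (hall'.and (hbig.and hpos))
  refine ⟨N₀, fun N hN => ?_⟩
  obtain ⟨h1, h2, hN0⟩ := hN₀ N hN
  rw [Real.dist_eq, sub_zero, abs_of_nonneg (by positivity)]
  have h3 := vdcV y T k N hk
  rw [hTH] at h3
  have h4 : ∑ i ∈ T, ∑ j ∈ T, ∑ n ∈ range N, (V (y (n + i) - y (n + j)) - 1 / 12) ≤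
      1 / 3 * H * N := by
    calc _ ≤ ∑ i ∈ T, ∑ j ∈ T, (if i = j then 1 / 6 * (N : ℝ) else 1 / (6 * (H : ℝ)) * N) :=
          sum_le_sum fun i hi => sum_le_sum fun j hj => h1 i hi j hj
      _ ≤ ∑ i ∈ T, ∑ j ∈ T, ((if i = j then 1 / 6 * (N : ℝ) else 0) + 1 / (6 * (H : ℝ)) * N) := by
          refine sum_le_sum fun i _ => sum_le_sum fun j _ => ?_
          have : 0 ≤ 1 / (6 * (H : ℝ)) * N := by positivity
          split_ifs <;> linarith
      _ = 1 / 3 * H * N := by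
          simp only [sum_add_distrib, sum_ite_eq, sum_const, nsmul_eq_mul, hTH]
          have : ∑ i ∈ T, (if i ∈ T then 1 / 6 * (N : ℝ) else 0) = H * (1 / 6 * N) := by
            rw [sum_congr rfl fun i hi => if_pos hi]
            simp [hTH]
          rw [this]
          field_simp
          ring
  have h5 : k * π * √(N * ∑ i ∈ T, ∑ j ∈ T, ∑ n ∈ range N,
      (V (y (n + i) - y (n + j)) - 1 / 12)) ≤ ε / 2 * H * N := by
    have h6 : √(N * ∑ i ∈ T, ∑ j ∈ T, ∑ n ∈ range N,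
      (V (y (n + i) - y (n + j)) - 1 / 12)) ≤ ε / (2 * (k * π)) * H * N := by
      rw [Real.sqrt_le_left (by positivity)]
      calc _ ≤ (N : ℝ) * (1 / 3 * H * N) := mul_le_mul_of_nonneg_left h4 hN0.le
        _ ≤ (ε / (2 * (k * π)) * H * N) ^ 2 := by
            have h6 : 4 * (k * π) ^ 2 ≤ ε ^ 2 * H := by
              rw [div_lt_iff₀ (by positivity)] at hH
              linarith
            have h7 : (0 : ℝ) ≤ H * N ^ 2 := by positivity
            have e : (ε / (2 * (k * π)) * H * N) ^ 2 =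
                (ε ^ 2 * H) / (4 * (k * π) ^ 2) * (H * N ^ 2) := by
              field_simp
              ring
            rw [e]
            have h8 : 1 ≤ (ε ^ 2 * H) / (4 * (k * π) ^ 2) := by
              rw [le_div_iff₀ (by positivity)]
              linarith
            nlinarith [mul_le_mul_of_nonneg_right h8 h7]
    calc _ ≤ k * π * (ε / (2 * (k * π)) * H * N) :=
          mul_le_mul_of_nonneg_left h6 (by positivity)
      _ = _ := by field_simp
  have h8 : 2 * ∑ h ∈ T, (h : ℝ) < ε / 4 * H * N := by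
    rw [div_lt_iff₀ (by positivity)] at h2
    linarith
  rw [div_lt_iff₀ hN0]
  have h9 : (H : ℝ) * ‖∑ n ∈ range N, ee (k * y n)‖ < H * (ε * N) := by
    refine lt_of_le_of_lt h3 ?_
    have : (0 : ℝ) < ε * H * N := by positivity
    nlinarith
  exact lt_of_mul_lt_mul_left h9 hHr.le

/-- the version for the orbits `b ^ n x` -/
theorem weyl_orbit {b : ℕ} (x : ℝ) (D : Set ℕ) (hD : D.Infinite)
    (h : ∀ i ∈ D, ∀ j ∈ D, i < j → ∀ ε : ℝ, 0 < ε → ∀ᶠ N : ℕ in atTop,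
      ∑ n ∈ range N, V (((b : ℝ) ^ (j - i) - 1) * ((b : ℝ) ^ n * x)) ≤ (1 / 12 + ε) * N) :
    Weyl fun n => (b : ℝ) ^ n * x := by
  refine weyl_of_V _ D hD fun i hi j hj hij ε hε => ?_
  have hbig : ∀ᶠ N : ℕ in atTop, (i : ℝ) ≤ ε * N := by
    have : Tendsto (fun N : ℕ => ε * (N : ℝ)) atTop atTop :=
      tendsto_natCast_atTop_atTop.const_mul_atTop hε
    exact this.eventually_ge_atTop _
  filter_upwards [h i hi j hj hij (ε / 2) (by positivity), hbig] with N hN hN2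
  set F : ℕ → ℝ := fun n => V (((b : ℝ) ^ (j - i) - 1) * ((b : ℝ) ^ n * x)) with hF
  have e : ∀ n, V ((b : ℝ) ^ (n + j) * x - (b : ℝ) ^ (n + i) * x) = F (n + i) := by
    intro n
    rw [hF]
    simp only
    congr 1
    have : n + j = n + i + (j - i) := by omega
    rw [this, pow_add]
    ring
  rw [sum_congr rfl fun n _ => e n]
  have h1 : ∑ n ∈ range N, F (n + i) ≤ ∑ n ∈ range N, F n + ∑ n ∈ range i, F (N + n) := by
    have h2 : ∑ n ∈ range (N + i), F n = ∑ n ∈ range N, F n + ∑ n ∈ range i, F (N + n) :=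
      sum_range_add F N i
    have h3 : ∑ n ∈ range (i + N), F n = ∑ n ∈ range i, F n + ∑ n ∈ range N, F (i + n) :=
      sum_range_add F i N
    have h4 : 0 ≤ ∑ n ∈ range i, F n := sum_nonneg fun n _ => V_nonneg _
    have h5 : ∑ n ∈ range N, F (n + i) = ∑ n ∈ range N, F (i + n) :=
      sum_congr rfl fun n _ => by rw [add_comm]
    rw [h5]
    rw [add_comm i N, h2] at h3
    linarith
  have h6 : ∑ n ∈ range i, F (N + n) ≤ i * (1 / 4) := by
    calc _ ≤ ∑ n ∈ range i, (1 / 4 : ℝ) := sum_le_sum fun n _ => V_le _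
      _ = _ := by rw [sum_const, card_range, nsmul_eq_mul]
  have h7 : (0 : ℝ) ≤ i := Nat.cast_nonneg i
  have h8 : 0 ≤ ε * N := h7.trans hN2
  linarith

end Pool.Agent.Run7.h614.NV
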