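import Pool.Agent.Run7.h614.NV.Conv

/-! # Frequencies from coincidences -/

set_option autoImplicit false

namespace Pool.Agent.Run7.h614.NV

open Finset Filter Topology

section coin

variable {ι : Type} [Fintype ι] [DecidableEq ι]

lemma sum_dl_eq (c c' : ℕ → ι) (N : ℕ) : ∑ n ∈ range N, dl (c n) (c' n) =
    (((range N).filter fun n => c n = c' n).card : ℝ) - 1 / Fintype.card ι * N := by
  unfold dl
  rw [sum_sub_distrib, sum_const, card_range, nsmul_eq_mul, card_filter]
  push_cast
  ring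

lemma dl_comm (i j : ι) : dl i j = dl j i := by
  unfold dl
  congr 1
  split_ifs with h1 h2 h2
  · rfl
  · exact absurd h1.symm h2
  · exact absurd h2.symm h1
  · rfl

/-- **One-sided difference theorem for coincidences.** -/
theorem freq_of_coin [Nonempty ι] (c : ℕ → ι) (D : Set ℕ) (hD : D.Infinite)
    (h : ∀ i ∈ D, ∀ j ∈ D, i < j → ∀ ε : ℝ, 0 < ε → ∀ᶠ N : ℕ in atTop,
      (((range N).filter fun n => c (n + i) = c (n + j)).card : ℝ) ≤ (1 / Fintype.card ι + ε) * N)
    (a : ι) : Tendsto (fun N : ℕ => (((range N).filter fun n => c n = a).card : ℝ) / N) atTop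
      (𝓝 (1 / Fintype.card ι)) := by
  rw [Metric.tendsto_atTop]
  intro ε hε
  obtain ⟨H, hH0, hH⟩ : ∃ H : ℕ, 1 ≤ H ∧ 8 / ε ^ 2 < H := by
    obtain ⟨H, hH⟩ := exists_nat_gt (8 / ε ^ 2)
    refine ⟨H + 1, by omega, ?_⟩
    push_cast
    linarith
  have hHr : (0 : ℝ) < H := by exact_mod_cast hH0
  obtain ⟨T, hTD, hTH⟩ := hD.exists_subset_card_eq H
  have hlt : ∀ i ∈ T, ∀ j ∈ T, i < j → ∀ᶠ N : ℕ in atTop,
      ∑ n ∈ range N, dl (c (n + i)) (c (n + j)) ≤ 1 / (H : ℝ) * N := by
    intro i hi j hj hij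
    filter_upwards [h i (hTD hi) j (hTD hj) hij (1 / (H : ℝ)) (by positivity)] with N hN
    rw [sum_dl_eq (fun n => c (n + i)) (fun n => c (n + j))]
    linarith
  have hall : ∀ i ∈ T, ∀ j ∈ T, ∀ᶠ N : ℕ in atTop,
      ∑ n ∈ range N, dl (c (n + i)) (c (n + j)) ≤
        if i = j then (N : ℝ) else 1 / (H : ℝ) * N := by
    intro i hi j hj
    rcases lt_trichotomy i j with hij | hij | hij
    · simp only [if_neg (show ¬ i = j by omega)]
      exact hlt i hi j hj hij
    · subst hij
      simp only [if_true]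
      refine Eventually.of_forall fun N => ?_
      calc _ ≤ ∑ n ∈ range N, (1 : ℝ) := sum_le_sum fun n _ => (abs_le.1 (abs_dl _ _)).2
        _ = N := by simp
    · simp only [if_neg (show ¬ i = j by omega)]
      filter_upwards [hlt j hj i hi hij] with N hN
      refine le_trans (le_of_eq ?_) hN
      exact sum_congr rfl fun n _ => dl_comm _ _
  have hall' : ∀ᶠ N : ℕ in atTop, ∀ i ∈ T, ∀ j ∈ T,
      ∑ n ∈ range N, dl (c (n + i)) (c (n + j)) ≤
        if i = j then (N : ℝ) else 1 / (H : ℝ) * N := by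
    rw [eventually_all_finset]
    intro i hi
    rw [eventually_all_finset]
    intro j hj
    exact hall i hi j hj
  have hbig : ∀ᶠ N : ℕ in atTop, 4 * (2 * ∑ h ∈ T, (h : ℝ)) / (ε * H) < (N : ℝ) :=
    tendsto_natCast_atTop_atTop.eventually_gt_atTop _
  have hpos : ∀ᶠ N : ℕ in atTop, (0 : ℝ) < (N : ℝ) :=
    tendsto_natCast_atTop_atTop.eventually_gt_atTop _
  obtain ⟨N₀, hN₀⟩ := eventually_atTop.1 (hall'.and (hbig.and hpos))
  refine ⟨N₀, fun N hN => ?_⟩
  obtain ⟨h1, h2, hN0⟩ := hN₀ N hN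
  have h3 := vdcC c T N a
  rw [hTH] at h3
  have h4 : ∑ i ∈ T, ∑ j ∈ T, ∑ n ∈ range N, dl (c (n + i)) (c (n + j)) ≤ 2 * H * N := by
    calc _ ≤ ∑ i ∈ T, ∑ j ∈ T, (if i = j then (N : ℝ) else 1 / (H : ℝ) * N) :=
          sum_le_sum fun i hi => sum_le_sum fun j hj => h1 i hi j hj
      _ ≤ ∑ i ∈ T, ∑ j ∈ T, ((if i = j then (N : ℝ) else 0) + 1 / (H : ℝ) * N) := by
          refine sum_le_sum fun i _ => sum_le_sum fun j _ => ?_
          have : 0 ≤ 1 / (H : ℝ) * N := by positivity
          split_ifs <;> linarith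
      _ = 2 * H * N := by
          simp only [sum_add_distrib, sum_ite_eq, sum_const, nsmul_eq_mul, hTH]
          have : ∑ i ∈ T, (if i ∈ T then (N : ℝ) else 0) = H * N := by
            rw [sum_congr rfl fun i hi => if_pos hi]
            simp [hTH]
          rw [this]
          field_simp
          ring
  have h5 : √(N * ∑ i ∈ T, ∑ j ∈ T, ∑ n ∈ range N, dl (c (n + i)) (c (n + j))) ≤
      ε / 2 * H * N := by
    rw [Real.sqrt_le_left (by positivity)]
    calc _ ≤ (N : ℝ) * (2 * H * N) := mul_le_mul_of_nonneg_left h4 hN0.le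
      _ ≤ (ε / 2 * H * N) ^ 2 := by
          have h6 : 8 ≤ ε ^ 2 * H := by
            rw [div_lt_iff₀ (by positivity)] at hH
            linarith
          have h7 : (0 : ℝ) ≤ H * N ^ 2 := by positivity
          nlinarith [mul_le_mul_of_nonneg_right h6 h7]
  have h8 : 2 * ∑ h ∈ T, (h : ℝ) < ε / 4 * H * N := by
    rw [div_lt_iff₀ (by positivity)] at h2
    linarith
  rw [sum_dl_eq c (fun _ => a)] at h3
  have h9 : (H : ℝ) * |(((range N).filter fun n => c n = a).card : ℝ) - 1 / Fintype.card ι * N| <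
      H * (ε * N) := by
    refine lt_of_le_of_lt h3 ?_
    have : (0 : ℝ) < ε * H * N := by positivity
    nlinarith
  have h10 := lt_of_mul_lt_mul_left h9 hHr.le
  rw [Real.dist_eq]
  have e : (((range N).filter fun n => c n = a).card : ℝ) / N - 1 / Fintype.card ι =
      ((((range N).filter fun n => c n = a).card : ℝ) - 1 / Fintype.card ι * N) / N := by
    field_simp
  rw [e, abs_div, abs_of_pos hN0, div_lt_iff₀ hN0]
  exact h10

/-- the same with the lags only -/
theorem freq_of_lag [Nonempty ι] (c : ℕ → ι) (D : Set ℕ) (hD : D.Infinite)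
    (h : ∀ i ∈ D, ∀ j ∈ D, i < j → ∀ ε : ℝ, 0 < ε → ∀ᶠ N : ℕ in atTop,
      (((range N).filter fun n => c n = c (n + (j - i))).card : ℝ) ≤ (1 / Fintype.card ι + ε) * N)
    (a : ι) : Tendsto (fun N : ℕ => (((range N).filter fun n => c n = a).card : ℝ) / N) atTop
      (𝓝 (1 / Fintype.card ι)) := by
  refine freq_of_coin c D hD (fun i hi j hj hij ε hε => ?_) a
  have hbig : ∀ᶠ N : ℕ in atTop, (i : ℝ) ≤ ε / 2 * N := by
    have : Tendsto (fun N : ℕ => ε / 2 * (N : ℝ)) atTop atTop :=
      tendsto_natCast_atTop_atTop.const_mul_atTop (by positivity)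
    exact this.eventually_ge_atTop _
  filter_upwards [h i hi j hj hij (ε / 2) (by positivity), hbig] with N hN hN2
  have h1 : ((range N).filter fun n => c (n + i) = c (n + j)).card ≤
      ((range N).filter fun n => c n = c (n + (j - i))).card + i := by
    have h2 : ((range N).filter fun n => c (n + i) = c (n + j)).card =
        (((range N).filter fun n => c (n + i) = c (n + j)).image (fun n => n + i)).card :=
      (card_image_of_injective _ (add_left_injective i)).symm
    rw [h2]
    have h3 : ((range N).filter fun n => c (n + i) = c (n + j)).image (fun n => n + i) ⊆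
        ((range N).filter fun n => c n = c (n + (j - i))) ∪ Ico N (N + i) := by
      intro m hm
      rw [mem_image] at hm
      obtain ⟨n, hn, rfl⟩ := hm
      rw [mem_filter, mem_range] at hn
      rw [mem_union, mem_filter, mem_range, mem_Ico]
      have e : n + i + (j - i) = n + j := by omega
      by_cases hlt : n + i < N
      · left
        exact ⟨hlt, by rw [e]; exact hn.2⟩
      · right
        omega
    refine (card_le_card h3).trans ((card_union_le _ _).trans ?_)
    rw [Nat.card_Ico]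
    omega
  have h4 : (((range N).filter fun n => c (n + i) = c (n + j)).card : ℝ) ≤
      (((range N).filter fun n => c n = c (n + (j - i))).card : ℝ) + i := by exact_mod_cast h1
  linarith

end coin

/-! ### Words -/

open Pool.Agent.Run7.h614.NM (digit Normal)

lemma digit_lt {b : ℕ} (hb : 0 < b) (x : ℝ) (n : ℕ) : (digit b x n).toNat < b := by
  unfold digit
  have hb' : (0 : ℤ) < b := by exact_mod_cast hb
  have h1 := Int.emod_nonneg ⌊x * (b : ℝ) ^ n⌋ hb'.ne'
  have h2 := Int.emod_lt_of_pos ⌊x * (b : ℝ) ^ n⌋ hb'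
  omega

lemma digit_nonneg {b : ℕ} (hb : 0 < b) (x : ℝ) (n : ℕ) : 0 ≤ digit b x n := by
  unfold digit
  exact Int.emod_nonneg _ (by exact_mod_cast hb.ne')

/-- the word of the digits `n + 1, …, n + l` -/
noncomputable def word {b : ℕ} (hb : 0 < b) (x : ℝ) (l n : ℕ) : Fin l → Fin b :=
  fun j => ⟨(digit b x (n + 1 + j)).toNat, digit_lt hb x _⟩

lemma word_eq_iff {b : ℕ} (hb : 0 < b) (x : ℝ) (l n : ℕ) (w : Fin l → Fin b) :
    word hb x l n = w ↔ ∀ j : Fin l, digit b x (n + 1 + j) = ((w j : ℕ) : ℤ) := by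
  rw [funext_iff]
  refine forall_congr' fun j => ?_
  unfold word
  rw [Fin.ext_iff]
  simp only
  have := digit_nonneg hb x (n + 1 + j)
  omega

lemma word_eq_word {b : ℕ} (hb : 0 < b) (x : ℝ) (l n m : ℕ) :
    word hb x l n = word hb x l m ↔ ∀ j : Fin l, digit b x (n + 1 + j) = digit b x (m + 1 + j) := by
  rw [funext_iff]
  refine forall_congr' fun j => ?_
  unfold word
  rw [Fin.ext_iff]
  simp only
  have := digit_nonneg hb x (n + 1 + j)
  have := digit_nonneg hb x (m + 1 + j)
  omega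

open Classical in
/-- normality from coincidences -/
theorem normal_of_coin {b : ℕ} (hb : 2 ≤ b) (x : ℝ)
    (h : ∀ l : ℕ, 1 ≤ l → ∃ D : Set ℕ, D.Infinite ∧ ∀ i ∈ D, ∀ j ∈ D, i < j → ∀ ε : ℝ, 0 < ε →
      ∀ᶠ N : ℕ in atTop, (((range N).filter fun n => ∀ t : Fin l,
        digit b x (n + 1 + t) = digit b x (n + (j - i) + 1 + t)).card : ℝ) ≤
          (1 / (b : ℝ) ^ l + ε) * N) : Normal b x := by
  have hb0 : 0 < b := by omega
  intro l hl w
  have : Nonempty (Fin b) := ⟨⟨0, hb0⟩⟩
  obtain ⟨D, hD, hDl⟩ := h l hl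
  have hcard : (Fintype.card (Fin l → Fin b) : ℝ) = (b : ℝ) ^ l := by
    rw [Fintype.card_fun, Fintype.card_fin, Fintype.card_fin]
    push_cast
    rfl
  have h1 := freq_of_lag (word hb0 x l) D hD (fun i hi j hj hij ε hε => by
    filter_upwards [hDl i hi j hj hij ε hε] with N hN
    rw [hcard]
    refine le_trans (le_of_eq ?_) hN
    congr 2
    ext n
    simp only [mem_filter, word_eq_word]) w
  rw [hcard] at h1
  refine h1.congr fun N => ?_
  congr 3
  ext n
  simp only [mem_filter, word_eq_iff]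

end Pool.Agent.Run7.h614.NV
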