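import Pool.Agent.Run7.h614.NV.B2
import Pool.Agent.Run7.h614.NM.Near

/-! # The converse for the second Bernoulli polynomial, and the discrete difference theorem -/

set_option autoImplicit false

namespace Pool.Agent.Run7.h614.NV

open Finset Filter Topology
open Pool.Agent.H807R2.Dav (ee norm_ee ee_add ee_zero ee_int ee_add_int ee_eq)
open Pool.Agent.H534R3.UDist (UD Weyl ud_of_weyl)
open Pool.Agent.Run7.h614.NM (ee_re ee_conj shift_sum)
open scoped Real ComplexConjugate

/-- the mean of `V` along an equidistributed sequence is `1 / 12` -/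
theorem mean_V {y : ℕ → ℝ} (h : Weyl y) :
    Tendsto (fun N : ℕ => (∑ n ∈ range N, V (y n)) / N) atTop (𝓝 (1 / 12)) := by
  have hsum : Summable fun k : ℕ => 1 / (k : ℝ) ^ 2 := Real.summable_one_div_nat_pow.2 (by norm_num)
  have h1 : Tendsto (fun N : ℕ => ∑' k : ℕ, 1 / (k : ℝ) ^ 2 *
      ((∑ n ∈ range N, Real.cos (2 * π * k * y n)) / N)) atTop (𝓝 (∑' _ : ℕ, (0 : ℝ))) := by
    refine tendsto_tsum_of_dominated_convergence hsum (fun k => ?_) (Eventually.of_forall fun N k => ?_)
    · rcases Nat.eq_zero_or_pos k with hk | hk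
      · subst hk
        simp
      · have h2 := h k hk
        have h3 : Tendsto (fun N : ℕ => (∑ n ∈ range N, Real.cos (2 * π * k * y n)) / N) atTop (𝓝 0) := by
          refine squeeze_zero_norm (fun N => ?_) h2
          rw [Real.norm_eq_abs, abs_div, abs_of_nonneg (Nat.cast_nonneg N : (0 : ℝ) ≤ N)]
          apply div_le_div_of_nonneg_right _ (Nat.cast_nonneg N)
          have e : ∑ n ∈ range N, Real.cos (2 * π * k * y n) =
              (∑ n ∈ range N, ee (k * y n)).re := by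
            rw [Complex.re_sum]
            refine sum_congr rfl fun n _ => ?_
            rw [ee_re]
            congr 1
            ring
          rw [e]
          exact Complex.abs_re_le_norm _
        have h4 := h3.const_mul (1 / (k : ℝ) ^ 2)
        rwa [mul_zero] at h4
    · rw [norm_mul, Real.norm_eq_abs, abs_of_nonneg (by positivity : (0 : ℝ) ≤ 1 / (k : ℝ) ^ 2)]
      apply mul_le_of_le_one_right (by positivity)
      rw [Real.norm_eq_abs, abs_div, abs_of_nonneg (Nat.cast_nonneg N : (0 : ℝ) ≤ N)]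
      rcases Nat.eq_zero_or_pos N with hN | hN
      · subst hN
        simp
      · rw [div_le_one (by exact_mod_cast hN)]
        calc |∑ n ∈ range N, Real.cos (2 * π * k * y n)| ≤ ∑ n ∈ range N, (1 : ℝ) :=
              (abs_sum_le_sum_abs _ _).trans (sum_le_sum fun n _ => Real.abs_cos_le_one _)
          _ = N := by simp
  rw [tsum_zero] at h1
  have h2 := (h1.const_mul (1 / π ^ 2)).add_const (1 / 12)
  rw [mul_zero, zero_add] at h2
  refine h2.congr' ?_
  filter_upwards [eventually_ge_atTop 1] with N hN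
  have hN0 : (0 : ℝ) < N := by exact_mod_cast hN
  have h3 : HasSum (fun k : ℕ => ∑ n ∈ range N, 1 / (k : ℝ) ^ 2 * Real.cos (2 * π * k * y n))
      (∑ n ∈ range N, π ^ 2 * (V (y n) - 1 / 12)) := hasSum_sum fun n _ => hasSum_V _
  have h4 := h3.div_const (N : ℝ)
  have h5 : (fun k : ℕ => (∑ n ∈ range N, 1 / (k : ℝ) ^ 2 * Real.cos (2 * π * k * y n)) / (N : ℝ)) =
      fun k : ℕ => 1 / (k : ℝ) ^ 2 * ((∑ n ∈ range N, Real.cos (2 * π * k * y n)) / (N : ℝ)) := by
    funext k
    rw [← mul_sum, mul_div_assoc]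
  rw [h5] at h4
  rw [h4.tsum_eq, ← mul_sum, sum_sub_distrib, sum_const, card_range, nsmul_eq_mul]
  field_simp
  ring

/-- the mean of `V` along the lag `g` of the orbit of a normal number -/
theorem mean_lag {b g : ℕ} (hb : 2 ≤ b) (hg : 1 ≤ g) {x : ℝ} (h : UD fun n => (b : ℝ) ^ n * x) :
    Tendsto (fun N : ℕ => (∑ n ∈ range N, V (((b : ℝ) ^ g - 1) * ((b : ℝ) ^ n * x))) / N) atTop
      (𝓝 (1 / 12)) := by
  refine mean_V (y := fun n => ((b : ℝ) ^ g - 1) * ((b : ℝ) ^ n * x)) fun k hk => ?_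
  have hlt : 1 < b ^ g := Nat.one_lt_pow (by omega) (by omega)
  have := Pool.Agent.N915.WT.weyl_int h ((k * (b ^ g - 1) : ℕ) : ℤ) (by
    have : k * (b ^ g - 1) ≠ 0 := Nat.mul_ne_zero (by omega) (by omega)
    exact_mod_cast this)
  refine this.congr fun N => ?_
  congr 2
  refine sum_congr rfl fun n _ => ?_
  congr 1
  rw [Nat.cast_mul, Nat.cast_sub hlt.le]
  push_cast
  ring

/-! ### Coincidences -/

section coin

variable {ι : Type} [Fintype ι] [DecidableEq ι]

/-- shift of the range of summation, real values -/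
lemma shift_real (f : ℕ → ℝ) (hf : ∀ n, |f n| ≤ 1) (N h : ℕ) :
    |∑ n ∈ range N, f n - ∑ n ∈ range N, f (n + h)| ≤ 2 * h := by
  have h1 := shift_sum (fun n => (f n : ℂ)) (fun n => by
    rw [Complex.norm_real, Real.norm_eq_abs]; exact hf n) N h
  rw [← Complex.ofReal_sum, ← Complex.ofReal_sum, ← Complex.ofReal_sub, Complex.norm_real,
    Real.norm_eq_abs] at h1
  exact h1

/-- `1` if `i = j`, otherwise `0`, minus the mean -/
noncomputable def dl (i j : ι) : ℝ := (if i = j then 1 else 0) - 1 / Fintype.card ι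

omit [Fintype ι] in
lemma sum_dl [Fintype ι] [Nonempty ι] (i j : ι) : ∑ a : ι, dl i a * dl j a = dl i j := by
  have hq : (Fintype.card ι : ℝ) ≠ 0 := by
    have := Fintype.card_pos (α := ι)
    positivity
  unfold dl
  have e : ∀ a : ι, ((if i = a then (1 : ℝ) else 0) - 1 / Fintype.card ι) *
      ((if j = a then 1 else 0) - 1 / Fintype.card ι) =
      (if i = a then (if j = a then (1 : ℝ) else 0) else 0) -
        (if i = a then 1 / (Fintype.card ι : ℝ) else 0) -
        (if j = a then 1 / (Fintype.card ι : ℝ) else 0) + 1 / (Fintype.card ι : ℝ) ^ 2 := by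
    intro a
    split_ifs <;> ring
  rw [sum_congr rfl fun a _ => e a, sum_add_distrib, sum_sub_distrib, sum_sub_distrib,
    sum_ite_eq, sum_ite_eq, sum_ite_eq, sum_const, card_univ, nsmul_eq_mul]
  simp only [mem_univ, if_true]
  have e2 : (if j = i then (1 : ℝ) else 0) = if i = j then 1 else 0 := by
    split_ifs with h1 h2 h2
    · rfl
    · exact absurd h1.symm h2
    · exact absurd h2.symm h1
    · rfl
  rw [e2]
  field_simp
  ring

lemma abs_dl (i j : ι) [Nonempty ι] : |dl i j| ≤ 1 := by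
  have hq : (1 : ℝ) ≤ Fintype.card ι := by exact_mod_cast Fintype.card_pos (α := ι)
  have h0 : 0 < 1 / (Fintype.card ι : ℝ) := by positivity
  have h1 : 1 / (Fintype.card ι : ℝ) ≤ 1 := by
    rw [div_le_one (by linarith)]
    exact hq
  unfold dl
  rw [abs_le]
  split_ifs <;> constructor <;> linarith

/-- **van der Corput's inequality for coincidences.** -/
theorem vdcC [Nonempty ι] (c : ℕ → ι) (T : Finset ℕ) (N : ℕ) (a : ι) :
    T.card * |∑ n ∈ range N, dl (c n) a| ≤ 2 * ∑ h ∈ T, (h : ℝ) +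
      √(N * ∑ h ∈ T, ∑ h' ∈ T, ∑ n ∈ range N, dl (c (n + h)) (c (n + h'))) := by
  set f : ℕ → ℝ := fun n => dl (c n) a with hf
  set S := ∑ n ∈ range N, f n with hS
  set G : ι → ℕ → ℝ := fun a n => ∑ h ∈ T, dl (c (n + h)) a with hG
  have h1 : (T.card : ℝ) * S - ∑ n ∈ range N, G a n =
      ∑ h ∈ T, (S - ∑ n ∈ range N, f (n + h)) := by
    rw [sum_sub_distrib, sum_const, nsmul_eq_mul, hG]
    congr 1
    exact sum_comm
  have h2 : |(T.card : ℝ) * S - ∑ n ∈ range N, G a n| ≤ 2 * ∑ h ∈ T, (h : ℝ) := by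
    rw [h1, mul_sum]
    exact (abs_sum_le_sum_abs _ _).trans (sum_le_sum fun h _ => shift_real f (fun n => abs_dl _ _) N h)
  have h3 : ∀ n, (G a n) ^ 2 ≤ ∑ h ∈ T, ∑ h' ∈ T, dl (c (n + h)) (c (n + h')) := by
    intro n
    have h4 : ∑ a : ι, (G a n) ^ 2 = ∑ h ∈ T, ∑ h' ∈ T, dl (c (n + h)) (c (n + h')) := by
      have h5 : ∀ a : ι, (G a n) ^ 2 = ∑ h ∈ T, ∑ h' ∈ T, dl (c (n + h)) a * dl (c (n + h')) a := by
        intro a
        rw [hG, sq, sum_mul_sum]
      rw [sum_congr rfl fun a _ => h5 a, sum_comm]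
      refine sum_congr rfl fun h _ => ?_
      rw [sum_comm]
      refine sum_congr rfl fun h' _ => ?_
      rw [sum_dl]
    rw [← h4]
    exact single_le_sum (f := fun a => (G a n) ^ 2) (fun a _ => sq_nonneg _) (mem_univ a)
  have h4 : |∑ n ∈ range N, G a n| ≤ √(N * ∑ n ∈ range N, (G a n) ^ 2) := by
    apply Real.abs_le_sqrt
    have h6 : (∑ n ∈ range N, G a n) ^ 2 ≤ ((range N).card : ℝ) * ∑ n ∈ range N, (G a n) ^ 2 :=
      sq_sum_le_card_mul_sum_sq
    rwa [card_range] at h6
  have h5 : (N : ℝ) * ∑ n ∈ range N, (G a n) ^ 2 ≤ N * ∑ h ∈ T, ∑ h' ∈ T,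
      ∑ n ∈ range N, dl (c (n + h)) (c (n + h')) := by
    apply mul_le_mul_of_nonneg_left _ (Nat.cast_nonneg N)
    refine (sum_le_sum fun n _ => h3 n).trans (le_of_eq ?_)
    rw [sum_comm]
    refine sum_congr rfl fun h _ => ?_
    rw [sum_comm]
  have h6 := h4.trans (Real.sqrt_le_sqrt h5)
  have h7 : (T.card : ℝ) * |S| = |(T.card : ℝ) * S| := by
    rw [abs_mul, Nat.abs_cast]
  rw [h7]
  have h8 : |(T.card : ℝ) * S| ≤ |(T.card : ℝ) * S - ∑ n ∈ range N, G a n| +
      |∑ n ∈ range N, G a n| := by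
    have := abs_add_le ((T.card : ℝ) * S - ∑ n ∈ range N, G a n) (∑ n ∈ range N, G a n)
    rwa [sub_add_cancel] at this
  linarith

end coin

end Pool.Agent.Run7.h614.NV
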