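import Pool.Agent.Run7.h614.NV.Coin

/-! # The coincidence frequencies of normal numbers -/

set_option autoImplicit false

namespace Pool.Agent.Run7.h614.NV

open Finset Filter Topology
open Pool.Agent.Run7.h614.NM (digit Normal)

/-- words of length `l + g` with period `g` -/
def Pd (b l g : ℕ) (u : Fin (l + g) → Fin b) : Prop :=
  ∀ t : Fin l, u ⟨t, by omega⟩ = u ⟨t + g, by omega⟩

lemma pd_mod {b l g : ℕ} (hg : 0 < g) {u : Fin (l + g) → Fin b} (hu : Pd b l g u) :
    ∀ (j : ℕ) (hj : j < l + g), u ⟨j, hj⟩ = u ⟨j % g, by have := Nat.mod_lt j hg; omega⟩ := by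
  intro j
  induction j using Nat.strong_induction_on with
  | _ j ih =>
    intro hj
    rcases Nat.lt_or_ge j g with h | h
    · congr 1
      rw [Fin.mk.injEq]
      exact (Nat.mod_eq_of_lt h).symm
    · have h1 := hu ⟨j - g, by omega⟩
      have h2 := ih (j - g) (by omega) (by omega)
      have e1 : (⟨(⟨j - g, by omega⟩ : Fin l) + g, by simp only; omega⟩ : Fin (l + g)) = ⟨j, hj⟩ := by
        rw [Fin.mk.injEq]
        simp only
        omega
      rw [e1] at h1
      rw [← h1]
      simp only at h2 ⊢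
      rw [h2]
      congr 1
      rw [Fin.mk.injEq]
      conv_rhs => rw [show j = j - g + g by omega]
      rw [Nat.add_mod_right]

open Classical in
lemma card_pd (b l g : ℕ) (hg : 0 < g) :
    ((univ : Finset (Fin (l + g) → Fin b)).filter (Pd b l g)).card = b ^ g := by
  have h1 : (univ : Finset (Fin g → Fin b)).card = b ^ g := by
    rw [card_univ, Fintype.card_fun, Fintype.card_fin, Fintype.card_fin]
  rw [← h1]
  refine card_bij' (fun u _ => fun i : Fin g => u ⟨i, by omega⟩)
    (fun v _ => fun j : Fin (l + g) => v ⟨j % g, Nat.mod_lt _ hg⟩) ?_ ?_ ?_ ?_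
  · intro u _
    exact mem_univ _
  · intro v _
    rw [mem_filter]
    refine ⟨mem_univ _, fun t => ?_⟩
    simp only
    congr 1
    rw [Fin.mk.injEq, Nat.add_mod_right]
  · intro u hu
    rw [mem_filter] at hu
    funext j
    exact (pd_mod hg hu.2 j j.2).symm
  · intro v _
    funext i
    simp only
    congr 1
    exact Fin.ext (Nat.mod_eq_of_lt i.2)

open Classical in
/-- in a normal number the words of length `l` at the distance `g` coincide with frequency
`b ^ (-l)` -/
theorem coin_of_normal {b : ℕ} (hb : 2 ≤ b) {x : ℝ} (h : Normal b x) (l g : ℕ) (hg : 1 ≤ g) :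
    Tendsto (fun N : ℕ => (((range N).filter fun n => ∀ t : Fin l,
      digit b x (n + 1 + t) = digit b x (n + g + 1 + t)).card : ℝ) / N) atTop
      (𝓝 (1 / (b : ℝ) ^ l)) := by
  have hb0 : 0 < b := by omega
  have hbr : (0 : ℝ) < b := by exact_mod_cast hb0
  set P : Finset (Fin (l + g) → Fin b) := univ.filter (Pd b l g) with hP
  have h1 : Tendsto (fun N : ℕ => ∑ u ∈ P, (((range N).filter fun n => ∀ j : Fin (l + g),
      digit b x (n + 1 + j) = ((u j : ℕ) : ℤ)).card : ℝ) / N) atTop
      (𝓝 (∑ _ ∈ P, 1 / (b : ℝ) ^ (l + g))) :=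
    tendsto_finsetSum _ fun u _ => h (l + g) (by omega) u
  have h2 : ∑ _ ∈ P, 1 / (b : ℝ) ^ (l + g) = 1 / (b : ℝ) ^ l := by
    rw [sum_const, hP, card_pd b l g (by omega), nsmul_eq_mul]
    push_cast
    rw [pow_add]
    field_simp
  rw [h2] at h1
  refine h1.congr fun N => ?_
  rw [← sum_div]
  congr 1
  rw [← Nat.cast_sum]
  congr 1
  have h3 : ((range N).filter fun n => ∀ t : Fin l,
      digit b x (n + 1 + t) = digit b x (n + g + 1 + t)) =
      P.biUnion fun u => (range N).filter fun n => ∀ j : Fin (l + g),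
        digit b x (n + 1 + j) = ((u j : ℕ) : ℤ) := by
    ext n
    rw [mem_biUnion, mem_filter]
    constructor
    · rintro ⟨hn, hc⟩
      refine ⟨word hb0 x (l + g) n, ?_, ?_⟩
      · rw [hP, mem_filter]
        refine ⟨mem_univ _, fun t => ?_⟩
        unfold word
        rw [Fin.mk.injEq]
        simp only
        have h4 := hc t
        have e : n + g + 1 + t = n + 1 + (t + g) := by ring
        rw [e] at h4
        rw [h4]
      · rw [mem_filter]
        exact ⟨hn, (word_eq_iff hb0 x (l + g) n _).1 rfl⟩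
    · rintro ⟨u, hu, hn⟩
      rw [mem_filter] at hn
      rw [hP, mem_filter] at hu
      refine ⟨hn.1, fun t => ?_⟩
      have h4 := hn.2 ⟨t, by omega⟩
      have h5 := hn.2 ⟨t + g, by omega⟩
      simp only at h4 h5
      have e : n + g + 1 + t = n + 1 + (t + g) := by ring
      rw [e, h4, h5, hu.2 t]
  rw [h3, card_biUnion]
  intro u _ v _ huv
  rw [Function.onFun, disjoint_left]
  intro n hn hn'
  rw [mem_filter] at hn hn'
  apply huv
  funext j
  have h4 := hn.2 j
  rw [hn'.2 j] at h4
  exact Fin.ext (by exact_mod_cast h4.symm)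

end Pool.Agent.Run7.h614.NV
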